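import Mathlib
import Pool.Agent.Lib.MP_680f50_nt.Exact

set_option autoImplicit false

open Polynomial Pool.Agent.Lib.MP_680f50_nt

namespace Pool.Agent.Results.MP_680f50_nt.ExactFormula

/-- The exact value of the least degree of a polynomial extending `M` with respect to `L`, for
every multiplicity matrix `M` and every sequence `L` of distinct elements of a field of
characteristic zero. -/
theorem result {K : Type*} [Field K] [CharZero K] {m n : ℕ}
    (M : Matrix (Fin m) (Fin (n + 1)) ℕ) (hM : IsMultiplicityMatrix M)
    (L : Fin m → K) (hL : Function.Injective L) :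
    IsLeast {N : ℕ | ∃ F : K[X], F.natDegree = N ∧ Extends M L F}
      (max n ((nonzeroSet M).sup fun u => ∑ N ∈ Finset.range (m * (n + 1)),
        (1 + (condMatrix L N (zeroSet M)).rank
          - (condMatrix L N (insert u (zeroSet M))).rank))) :=
  isLeast_exact hM hL

end Pool.Agent.Results.MP_680f50_nt.ExactFormula
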