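import Mathlib
import Pool.Agent.Lib.MP_680f50_nt.GenericFormula

set_option autoImplicit false

open Polynomial Pool.Agent.Lib.MP_680f50_nt

namespace Pool.Agent.Results.MP_680f50_nt.GenericNodes

/-- For nodes outside the zero set of a nonzero integer polynomial depending only on `M`, the
least degree of a polynomial extending `M` is the maximum over `0 ≤ j ≤ n` of `j` plus the number
of nonzero entries of `M` in the columns `j, ..., n`. -/
theorem result.{u} {m n : ℕ} (M : Matrix (Fin m) (Fin (n + 1)) ℕ) (hM : IsMultiplicityMatrix M) :
    ∃ Δ : MvPolynomial (Fin m) ℤ, Δ ≠ 0 ∧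
      ∀ (K : Type u) [Field K] [CharZero K] (L : Fin m → K), Function.Injective L →
        MvPolynomial.aeval L Δ ≠ 0 →
        IsLeast {N : ℕ | ∃ F : K[X], F.natDegree = N ∧ Extends M L F}
          ((Finset.range (n + 1)).sup (fun j => j + tailCount M j)) :=
  generic_formula hM

end Pool.Agent.Results.MP_680f50_nt.GenericNodes
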