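import Mathlib
import Pool.Agent.Lib.MP_680f50_nt.TwoNode

set_option autoImplicit false

open Polynomial Pool.Agent.Lib.MP_680f50_nt

namespace Pool.Agent.Results.MP_680f50_nt.TwoNodes

/-- For at most two nodes, in any position, the least degree of a polynomial extending `M` is the
maximum over `0 ≤ j ≤ n` of `j` plus the number of nonzero entries of `M` in the columns
`j, ..., n`. -/
theorem result {K : Type*} [Field K] [CharZero K] {m n : ℕ} (hm : m ≤ 2)
    (M : Matrix (Fin m) (Fin (n + 1)) ℕ) (hM : IsMultiplicityMatrix M)
    (L : Fin m → K) (hL : Function.Injective L) :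
    IsLeast {N : ℕ | ∃ F : K[X], F.natDegree = N ∧ Extends M L F}
      ((Finset.range (n + 1)).sup (fun j => j + tailCount M j)) :=
  two_node_formula hM hm L hL

end Pool.Agent.Results.MP_680f50_nt.TwoNodes
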