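import Mathlib
import Pool.Agent.Lib.MP_680f50_nt.Exact

set_option autoImplicit false

open Polynomial Pool.Agent.Lib.MP_680f50_nt

namespace Pool.Agent.Results.MP_680f50_nt.UpperBound

/-- `reach M i` is one more than the index of the last nonzero entry of row `i` of `M`, and it
is `0` if row `i` is zero. -/
def reach {m n : ℕ} (M : Matrix (Fin m) (Fin (n + 1)) ℕ) (i : Fin m) : ℕ :=
  (Finset.univ.filter fun k : Fin (n + 1) => M i k ≠ 0).sup fun k => (k : ℕ) + 1

/-- Hermite interpolation with a prescribed number of conditions at each node. -/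
lemma hermite_weights {K : Type*} [Field K] [CharZero K] {m : ℕ} {L : Fin m → K}
    (hL : Function.Injective L) (w : Fin m → ℕ) (v : (i : Fin m) → Fin (w i) → K) :
    ∃ F : K[X], (F ≠ 0 → F.natDegree < ∑ i, w i) ∧
      ∀ i, ∀ k : Fin (w i), ev (L i) (k : ℕ) F = v i k := by
  classical
  let f : degreeLT K (∑ i, w i) →ₗ[K] ((i : Fin m) → Fin (w i) → K) :=
    { toFun := fun F i k => ev (L i) (k : ℕ) (F : K[X])
      map_add' := by intro F G; ext i k; simp
      map_smul' := by intro a F; ext i k; simp }
  have hinj : Function.Injective f := by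
    rw [← LinearMap.ker_eq_bot, LinearMap.ker_eq_bot']
    rintro ⟨F, hF⟩ hf
    have hf' : ∀ i, ∀ k : Fin (w i), ev (L i) (k : ℕ) F = 0 :=
      fun i k => congrFun (congrFun hf i) k
    by_contra hne
    have hF0 : F ≠ 0 := fun h => hne (Subtype.ext h)
    have hmult : ∀ i, w i ≤ F.rootMultiplicity (L i) := by
      intro i
      rcases Nat.eq_zero_or_pos (w i) with h | h
      · omega
      · have : w i - 1 < F.rootMultiplicity (L i) := by
          rw [lt_rootMultiplicity_iff_isRoot_iterate_derivative hF0]
          intro k hk
          have := hf' i ⟨k, by omega⟩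
          rw [ev_apply] at this
          exact this
        omega
    have hdeg : F.natDegree < ∑ i, w i := by
      rw [mem_degreeLT] at hF
      exact (natDegree_lt_iff_degree_lt hF0).mpr hF
    have h1 : ∑ i : Fin m, F.rootMultiplicity (L i) ≤ Multiset.card F.roots := by
      have h2 : ∑ i : Fin m, F.rootMultiplicity (L i)
          = ∑ a ∈ Finset.univ.image L, F.roots.count a := by
        rw [Finset.sum_image (fun i _ j _ h => hL h)]
        refine Finset.sum_congr rfl fun i _ => ?_
        rw [count_roots]
      rw [h2, ← Multiset.sum_count_eq_card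
        (s := Finset.univ.image L ∪ F.roots.toFinset) (m := F.roots) (by
          intro a ha
          exact Finset.mem_union_right _ (Multiset.mem_toFinset.mpr ha))]
      exact Finset.sum_le_sum_of_subset Finset.subset_union_left
    have h3 : ∑ i, w i ≤ ∑ i : Fin m, F.rootMultiplicity (L i) :=
      Finset.sum_le_sum fun i _ => hmult i
    have h4 := card_roots' F
    omega
  have hfr : Module.finrank K (degreeLT K (∑ i, w i)) =
      Module.finrank K ((i : Fin m) → Fin (w i) → K) := by
    rw [(degreeLTEquiv K (∑ i, w i)).finrank_eq, Module.finrank_fin_fun,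
      Module.finrank_pi_fintype]
    simp
  have hfin : FiniteDimensional K (degreeLT K (∑ i, w i)) :=
    Module.Finite.equiv (degreeLTEquiv K (∑ i, w i)).symm
  obtain ⟨F, hF⟩ := (LinearMap.injective_iff_surjective_of_finrank_eq_finrank hfr).mp hinj v
  refine ⟨F, ?_, fun i k => congrFun (congrFun hF i) k⟩
  intro h0
  have := mem_degreeLT.mp F.2
  rw [← natDegree_lt_iff_degree_lt h0] at this
  exact this

/-- For `m ≥ 1` every multiplicity matrix is extended, with respect to every sequence of distinct
nodes, by a polynomial of degree at most `max_i (n + ∑_{i' ≠ i} reach i')`, and this number is at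
most `m * n`. -/
theorem result {K : Type*} [Field K] [CharZero K] {m n : ℕ} (hm : 1 ≤ m)
    (M : Matrix (Fin m) (Fin (n + 1)) ℕ) (hM : IsMultiplicityMatrix M)
    (L : Fin m → K) (hL : Function.Injective L) :
    (∃ F : K[X], Extends M L F ∧
      F.natDegree ≤ Finset.univ.sup fun i => n + ∑ i' ∈ Finset.univ.erase i, reach M i') ∧
    (Finset.univ.sup fun i => n + ∑ i' ∈ Finset.univ.erase i, reach M i') ≤ m * n := by
  classical
  have hreach : ∀ i, reach M i ≤ n := by
    intro i
    apply Finset.sup_le
    intro k hk
    have h1 := (Finset.mem_filter.mp hk).2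
    have h2 : k ≠ Fin.last n := by
      rintro rfl
      exact h1 (hM.1 i)
    have h3 : (k : ℕ) < n := by
      have := k.2
      rcases Nat.lt_or_ge (k : ℕ) n with h | h
      · exact h
      · exact absurd (Fin.ext (by simp; omega)) h2
    omega
  have hz : ∀ s ∈ zeroSet M, (s.2 : ℕ) < reach M s.1 := by
    intro s hs
    have h1 : s.2 ∈ Finset.univ.filter fun k : Fin (n + 1) => M s.1 k ≠ 0 := by
      simpa [zeroSet] using hs
    exact Nat.lt_of_succ_le (Finset.le_sup (f := fun k : Fin (n + 1) => (k : ℕ) + 1) h1)
  refine ⟨?_, ?_⟩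
  · obtain ⟨F, hF1, hF2⟩ := (isLeast_exact hM hL).1
    refine ⟨F, hF2, ?_⟩
    rw [hF1]
    set B := Finset.univ.sup fun i => n + ∑ i' ∈ Finset.univ.erase i, reach M i' with hB
    have hBi : ∀ i, n + ∑ i' ∈ Finset.univ.erase i, reach M i' ≤ B := fun i =>
      Finset.le_sup (f := fun i => n + ∑ i' ∈ Finset.univ.erase i, reach M i')
        (Finset.mem_univ i)
    apply max_le
    · exact le_trans (Nat.le_add_right _ _) (hBi ⟨0, hm⟩)
    · apply Finset.sup_le
      intro u hu
      by_contra hlt
      push Not at hlt
      have hnz : u ∉ zeroSet M := by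
        intro hz
        simp only [nonzeroSet, zeroSet, Finset.mem_filter, Finset.mem_univ, true_and] at hu hz
        exact hz hu
      rw [← gap_spec hL hnz] at hlt
      let w : Fin m → ℕ := fun i => if i = u.1 then n + 1 else reach M i
      obtain ⟨F, hF1, hF2⟩ := hermite_weights hL w
        (fun i k => if i = u.1 ∧ (k : ℕ) = (u.2 : ℕ) then (1 : K) else 0)
      have hw : ∑ i, w i = n + 1 + ∑ i' ∈ Finset.univ.erase u.1, reach M i' := by
        rw [← Finset.add_sum_erase _ _ (Finset.mem_univ u.1)]
        congr 1
        · simp [w]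
        · refine Finset.sum_congr rfl fun i hi => ?_
          simp only [w]
          rw [if_neg (Finset.ne_of_mem_erase hi)]
      have h1 := hlt F (by
        by_cases h0 : F = 0
        · rw [h0]; simp
        · have := hF1 h0
          have := hBi u.1
          omega) (by
        intro s hs
        have hk : (s.2 : ℕ) < w s.1 := by
          simp only [w]
          split_ifs
          · exact s.2.2
          · exact hz s hs
        have h2 := hF2 s.1 ⟨s.2, hk⟩
        simp only at h2
        rw [h2, if_neg]
        rintro ⟨h3, h4⟩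
        apply hnz
        have : u = s := Prod.ext h3.symm (Fin.ext h4.symm)
        rw [this]; exact hs)
      have hku : (u.2 : ℕ) < w u.1 := by
        simp only [w, if_true]
        exact u.2.2
      have h3 := hF2 u.1 ⟨u.2, hku⟩
      simp only [and_self, if_true] at h3
      rw [h1] at h3
      exact zero_ne_one h3
  · apply Finset.sup_le
    intro i _
    calc n + ∑ i' ∈ Finset.univ.erase i, reach M i'
        ≤ n + ∑ _i' ∈ Finset.univ.erase i, n :=
          Nat.add_le_add_left (Finset.sum_le_sum fun i' _ => hreach i') _
      _ = m * n := by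
          rw [Finset.sum_const, Finset.card_erase_of_mem (Finset.mem_univ i), Finset.card_univ,
            Fintype.card_fin, smul_eq_mul]
          obtain ⟨m', rfl⟩ : ∃ m', m = m' + 1 := ⟨m - 1, by omega⟩
          simp
          ring

end Pool.Agent.Results.MP_680f50_nt.UpperBound
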